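import Pool.Agent.P.MP_48c50a_an.Geom

open PowerSeries Filter Topology

namespace Pool.Agent.Results.MP_48c50a_an.NoZeroFreeSector

/-- A weight: `ω 0 = 1`, `ω k > 0`, `ω k / ω (k+1) → 1`. -/
def IsWeight (ω : ℕ → ℝ) : Prop :=
  ω 0 = 1 ∧ (∀ k, 0 < ω k) ∧ Tendsto (fun k => ω k / ω (k + 1)) atTop (𝓝 1)

/-- The squared norm `∑ |a_k|² ω_k ∈ [0, ∞]` of the power series `f = ∑ a_k z^k`;
the space `H²_ω` consists of the power series for which it is finite. -/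
noncomputable def normSq (ω : ℕ → ℝ) (f : ℂ⟦X⟧) : ENNReal :=
  ∑' k, ENNReal.ofReal (‖coeff k f‖ ^ 2 * ω k)

/-- `f ∈ H²_ω` and the polynomial multiples of `f` are dense in `H²_ω`. -/
def IsCyclic (ω : ℕ → ℝ) (f : ℂ⟦X⟧) : Prop :=
  normSq ω f < ⊤ ∧ ∀ g : ℂ⟦X⟧, normSq ω g < ⊤ → ∀ ε : ENNReal, 0 < ε →
    ∃ p : Polynomial ℂ, normSq ω ((p : ℂ⟦X⟧) * f - g) < ε

/-- `q` is an `n`-th optimal polynomial approximant of `1/f`: it has degree at most `n` and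
minimises `‖p f - 1‖_ω` among the polynomials `p` of degree at most `n`. -/
def IsOPA (ω : ℕ → ℝ) (f : ℂ⟦X⟧) (n : ℕ) (q : Polynomial ℂ) : Prop :=
  q.natDegree ≤ n ∧ ∀ p : Polynomial ℂ, p.natDegree ≤ n →
    normSq ω ((q : ℂ⟦X⟧) * f - 1) ≤ normSq ω ((p : ℂ⟦X⟧) * f - 1)

/-- There are a weight `ω` and a cyclic `f ∈ H²_ω` such that, at every point `ζ` of the unit
circle, every sector with vertex `ζ` contains a zero of some optimal polynomial approximant. -/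
theorem result : ∃ (ω : ℕ → ℝ) (f : ℂ⟦X⟧), IsWeight ω ∧ IsCyclic ω f ∧
    (∀ n : ℕ, ∃ q : Polynomial ℂ, IsOPA ω f n q) ∧
    ∀ ζ : ℂ, ‖ζ‖ = 1 → ∀ ρ θ₁ θ₂ : ℝ, 0 < ρ → θ₁ < θ₂ →
      ∃ n : ℕ, ∀ q : Polynomial ℂ, IsOPA ω f n q → q ≠ 0 ∧
        ∃ r θ : ℝ, 0 < r ∧ r < ρ ∧ θ₁ < θ ∧ θ < θ₂ ∧
          q.eval (ζ + r * Complex.exp (θ * Complex.I)) = 0 := by
  obtain ⟨W, F, W0, Wpos, Wa, hrat, hF, hT, hz⟩ := Pool.Agent.P.MP_48c50a_an.main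
  have hW : ∀ k, 0 ≤ W k := fun k => (Wpos k).le
  refine ⟨fun k => W k ^ 2, F, ⟨by simp [W0], fun k => pow_pos (Wpos k) 2, hrat⟩,
    ⟨(Pool.Agent.P.MP_48c50a_an.nsq_le hW hF).trans_lt ENNReal.ofReal_lt_top,
      Pool.Agent.P.MP_48c50a_an.cyclic_of hW Wa hT⟩,
    Pool.Agent.P.MP_48c50a_an.exists_opa hW Wa W0 hF, fun ζ hζ ρ θ₁ θ₂ hρ hθ => ?_⟩
  obtain ⟨n, hn⟩ := hz ζ hζ ρ θ₁ θ₂ hρ hθ
  exact ⟨n, fun q hq => hn q hq.1 hq.2⟩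

end Pool.Agent.Results.MP_48c50a_an.NoZeroFreeSector
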